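import Mathlib
import Pool.Agent.Helper19.V3.Sub
import Pool.Agent.Helper19.A3.Out
import Pool.Agent.Helper19.A3.Hyp
import Pool.Agent.Helper19.G5.FldHyp
import Pool.Agent.Helper19.G5.ArrHyp
import Pool.Agent.Helper19.G5.AffNec

set_option autoImplicit false

/-!
# The Steiner systems `S(n, k, 2)` with a given number of affine points

A point `p` of a Steiner system `S(n, k, 2)` is an affine point if any two blocks through `p` are
contained in a subsystem with `k ^ 2` points, that is, in an affine plane of order `k`.  We ask for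
`n > k ^ 2`, so that the system is not itself an affine plane.

We determine for all `k ≥ 5`, all `n > k ^ 2` and all `j ≥ 1` whether there is a Steiner system
`S(n, k, 2)` with at least `j` affine points, in terms of the existence of a Steiner system with
blocks of `k + 1` points on fewer points and of projective planes of order `k`.  Let `r ≥ 0` be
given by `k ^ (r - 1) < j ≤ k ^ r`.  The system exists if and only if
`n = k ^ r ((k - 1) m + 1)`, where there is an `S(m, k + 1, 2)` (this is the case for `m = 0` and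
`m = 1`), and

* `k` is a prime power, or
* `j ≤ 2` and there is a projective plane of order `k`.

Idea of the proof.  The blocks through an affine point `p` are the points of a Steiner system
`S(h, k + 1, 2)`, whose blocks are the affine planes through `p`.  The system can be completed at
`p`: add the blocks through `p` as new points, extend every block by its direction and add the
blocks of the quotient.  The result is a system `S(n + h, k + 1, 2)` for which `p` is a Veblen
point.  If `p'` is a second affine point then, for `k ≥ 5`, the block `pp'` is a Veblen point of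
the quotient at `p` (two affine planes through `p` that meet two planes through `p` and `p'` in
blocks have a common block; this is a counting argument with parallels), and it follows that the
affine planes through `p'` also extend to projective planes of the completed system, so that `p'`
is a Veblen point there.  So all affine points are Veblen points of the completed system, and they
are outside a hyperplane.  Three Veblen points force `k` to be a prime power, and more than
`k ^ (r - 1)` Veblen points outside a hyperplane generate a subsystem with at least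
`1 + k + ... + k ^ r` points; taking quotients at `r + 1` of them gives the system
`S(m, k + 1, 2)`.  Conversely, we extend the system `S(m, k + 1, 2)` by a projective space over the
field with `k` elements, or by a point or a block if `j ≤ 2`, such that there is a suitable
hyperplane, and remove this hyperplane.
-/

namespace Pool.Agent.Results.MP_409a13_co.AffinePointSpectrum

open Finset Pool.Agent.V11100.VB

/-- `B` is a Steiner system `S(n, k, t)` on `V` -/
def IsSteiner {V : Type} [Fintype V] (B : Finset (Finset V)) (n k t : ℕ) : Prop :=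
  Fintype.card V = n ∧ (∀ b ∈ B, b.card = k) ∧ ∀ R : Finset V, R.card = t → ∃! b, b ∈ B ∧ R ⊆ b

/-- `S` is a subsystem: it contains every block that has two points in `S` -/
def IsSubsystem {V : Type} (B : Finset (Finset V)) (S : Finset V) : Prop :=
  ∀ b ∈ B, ∀ x ∈ b, ∀ y ∈ b, x ≠ y → x ∈ S → y ∈ S → b ⊆ S

/-- `p` is an affine point of the system `B` with blocks of `k` points: any two blocks through `p`
are contained in a subsystem with `k ^ 2` points -/
def IsAffinePoint {V : Type} (B : Finset (Finset V)) (k : ℕ) (p : V) : Prop :=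
  ∀ l ∈ B, ∀ m ∈ B, l ≠ m → p ∈ l → p ∈ m →
    ∃ S : Finset V, S.card = k ^ 2 ∧ IsSubsystem B S ∧ l ⊆ S ∧ m ⊆ S

/-- there is a Steiner system `S(m, k + 1, 2)` -/
def HasSystem (k m : ℕ) : Prop :=
  ∃ (V : Type) (_ : Fintype V) (B : Finset (Finset V)), IsSteiner B m (k + 1) 2

/-- there is a Steiner system `S(n, k, 2)` with at least `j` affine points -/
def HasAffineSystem (k n j : ℕ) : Prop :=
  ∃ (V : Type) (_ : Fintype V) (B : Finset (Finset V)) (T : Finset V),
    IsSteiner B n k 2 ∧ T.card = j ∧ ∀ p ∈ T, IsAffinePoint B k p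

theorem apt_iff {V : Type} [DecidableEq V] {B : Finset (Finset V)} {q : ℕ} (H : LS B q) (p : V) :
    IsAffinePoint B (q + 1) p ↔ Helper19.A3.Apt B q p := by
  constructor
  · intro h l hl m hm hlm pl pm
    obtain ⟨S, h1, h2, h3, h4⟩ := h l hl m hm hlm pl pm
    refine ⟨S, ⟨by rw [h1]; ring, ?_⟩, h3, h4⟩
    intro x hx y hy hxy
    exact h2 _ (H.bB hxy) x (H.b1 hxy) y (H.b2 hxy) hxy hx hy
  · intro h l hl m hm hlm pl pm
    obtain ⟨S, P, h3, h4⟩ := h l hl m hm hlm pl pm
    refine ⟨S, by rw [P.card]; ring, ?_, h3, h4⟩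
    intro b hb x hx y hy hxy hxS hyS
    exact P.sub H hxS hyS hxy hb hx hy

theorem plane_of {q n j : ℕ} (hq : 2 ≤ q) (hn : (q + 1) ^ 2 < n) (hj : 0 < j)
    (H : HasAffineSystem (q + 1) n j) : HasSystem (q + 1) ((q + 1) ^ 2 + (q + 1) + 1) := by
  classical
  obtain ⟨V, _, B, T, h2, h3, h4⟩ := H
  obtain ⟨p, hpT⟩ : T.Nonempty := by rw [← card_pos]; omega
  have HB : LS B q := ⟨h2.2.1, h2.2.2, hq⟩
  have hp := (apt_iff HB p).1 (h4 p hpT)
  have hn' : (q + 1) * (q + 1) < Fintype.card V := by
    rw [h2.1]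
    calc (q + 1) * (q + 1) = (q + 1) ^ 2 := by ring
      _ < n := hn
  have HC := Helper19.A3.cB_LS HB hp
  obtain ⟨L, hL, hpL⟩ := Helper19.V3.exists_block_notMem HC (.inl p)
    (Helper19.A3.card_comp HB p hn')
  have P := Helper19.V3.pla_pl HC (Helper19.A3.veblen_self HB hp) hL hpL
  obtain ⟨C, HC'⟩ := Helper19.V3.sub_LS HC P
  refine ⟨_, inferInstance, C, ?_, HC'.size, HC'.two⟩
  rw [Fintype.card_coe, P.card]
  ring

theorem field_sys {q m j r : ℕ} (hq : 2 ≤ q) (hpp : IsPrimePow (q + 1))
    (hm : HasSystem (q + 1) m) (hj : j ≤ (q + 1) ^ r) :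
    HasAffineSystem (q + 1) ((q + 1) ^ r * (q * m + 1)) j := by
  classical
  obtain ⟨M, _, D, h1, h2, h3⟩ := hm
  have HD : LS D (q + 1) := ⟨h2, h3, by omega⟩
  obtain ⟨p, n, hp, hn, hpn⟩ := hpp
  have : Fact p.Prime := ⟨hp.nat_prime⟩
  let K := GaloisField p n
  have : Finite K := inferInstance
  have : Fintype K := Fintype.ofFinite K
  have hK : Fintype.card K = q + 1 := by
    rw [← Nat.card_eq_fintype_card, GaloisField.card p n hn.ne', hpn]
  let W := Fin (r + 1) → K
  have : Finite (Projectivization K W) :=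
    (Projectivization.finite_iff_of_finite K W).2 inferInstance
  have : Fintype (Projectivization K W) := Fintype.ofFinite _
  obtain ⟨c, hc⟩ := Helper19.G5.exists_ind HD hK
  have hP : Fintype.card (Projectivization K W) = ∑ i ∈ range (r + 1), (q + 1) ^ i := by
    rw [← Nat.card_eq_fintype_card, Projectivization.card_of_finrank K W (n := r + 1)
      (by simp [W]), Nat.card_eq_fintype_card, hK]
  have hW : Fintype.card W = (q + 1) ^ (r + 1) := by
    simp only [W, Fintype.card_fun, Fintype.card_fin, hK]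
  have H := Helper19.G5.fB_LS (W := W) HD hK hc
  let l : W →ₗ[K] K := LinearMap.proj 0
  have hl : Module.finrank K (LinearMap.ker l) = r := by
    have h4 := LinearMap.finrank_range_add_finrank_ker l
    have h5 : LinearMap.range l = ⊤ := by
      rw [LinearMap.range_eq_top]
      intro a
      exact ⟨fun _ => a, rfl⟩
    rw [h5, finrank_top, Module.finrank_self] at h4
    have h6 : Module.finrank K W = r + 1 := by simp [W]
    omega
  have hΛ := Helper19.G5.fB_hyp (W := W) HD hK hc l
  have HR := Helper19.A3.rB_LS H hq hΛ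
  -- the points
  have hcard : Fintype.card {w : Projectivization K W ⊕ (M × W) // w ∉ Helper19.G5.fH M l} =
      (q + 1) ^ r * (q * m + 1) := by
    rw [Fintype.card_subtype_compl, Fintype.card_coe, Helper19.G5.card_fH hK l, hl,
      Fintype.card_sum, Fintype.card_prod, hP, hW, h1, sum_range_succ]
    apply Nat.sub_eq_of_eq_add
    ring
  have hT : j ≤ (univ.filter fun w : {w : Projectivization K W ⊕ (M × W) //
      w ∉ Helper19.G5.fH M l} => ∃ x, w.1 = .inl x).card := by
    refine hj.trans (le_of_eq ?_)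
    have h4 : (univ.filter fun w : {w : Projectivization K W ⊕ (M × W) //
        w ∉ Helper19.G5.fH M l} => ∃ x, w.1 = .inl x).card =
        (univ.filter fun x : Projectivization K W => ¬ x.submodule ≤ LinearMap.ker l).card := by
      symm
      refine card_bij (fun x hx => ⟨.inl x, fun h =>
        (mem_filter.1 hx).2 (Helper19.G5.inl_fH.1 h)⟩) ?_ ?_ ?_
      · intro x hx
        exact mem_filter.2 ⟨mem_univ _, x, rfl⟩
      · intro x _ y _ h
        exact Sum.inl_injective (Subtype.ext_iff.1 h)
      · rintro ⟨w, hw⟩ hw'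
        obtain ⟨-, x, hx⟩ := mem_filter.1 hw'
        simp only at hx
        subst hx
        exact ⟨x, mem_filter.2 ⟨mem_univ _, fun h => hw (Helper19.G5.inl_fH.2 h)⟩, rfl⟩
    rw [h4]
    have h5 := card_filter_add_card_filter_not (s := (univ : Finset (Projectivization K W)))
      (fun x => x.submodule ≤ LinearMap.ker l)
    rw [card_univ, hP, Helper19.G5.card_proj (LinearMap.ker l) _ (by simp), hl,
      Nat.card_eq_fintype_card, hK, sum_range_succ] at h5
    omega
  obtain ⟨T, hT1, hTj⟩ := exists_subset_card_eq hT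
  refine ⟨_, inferInstance, Helper19.A3.rB (Helper19.G5.fB D c) (Helper19.G5.fH M l), T,
    ⟨hcard, HR.size, HR.two⟩, hTj, ?_⟩
  intro w hw
  obtain ⟨-, x, hx⟩ := mem_filter.1 (hT1 hw)
  refine (apt_iff HR w).2 (Helper19.A3.rB_apt H hq hΛ w ?_)
  rw [hx]
  exact Helper19.G5.fB_veblen HD hK hc x

theorem one_sys {q m : ℕ} (hq : 2 ≤ q)
    (hP : HasSystem (q + 1) ((q + 1) ^ 2 + (q + 1) + 1)) (hm : HasSystem (q + 1) m) :
    HasAffineSystem (q + 1) (q * m + 1) 1 := by
  classical
  obtain ⟨V, _, B, p1, p2, p3⟩ := hP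
  have HB : LS B (q + 1) := ⟨p2, p3, by omega⟩
  have P : Helper19.V3.Pla B (q + 1) univ := by
    refine ⟨?_, fun _ _ _ _ _ => subset_univ _⟩
    rw [card_univ, p1]
    ring
  obtain ⟨M, _, D, h1, h2, h3⟩ := hm
  have HD : LS D (q + 1) := ⟨h2, h3, by omega⟩
  obtain ⟨G, _, γ0, O0⟩ := Helper19.V3.exists_OA HB P
  have e12 : (⟨0, by omega⟩ : Fin (q + 1 + 1)) ≠ ⟨1, by omega⟩ := by
    intro h
    simp at h
  obtain ⟨g0, -⟩ := O0.ex _ _ e12 ⟨0, by omega⟩ ⟨0, by omega⟩
  obtain ⟨γ, O, hγ⟩ := Helper19.G5.exists_const O0 g0 (⟨0, by omega⟩ : Fin (q + 1))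
  obtain ⟨σ, hσ⟩ := Helper19.G5.exists_inj (E := Fin (q + 1 + 1)) HD (by simp)
  have H := Helper19.G5.cone1_LS HD O hσ (by simp)
  have hΛ := Helper19.G5.cone1_hyp HD (by simp) O hσ hγ
  have HR := Helper19.A3.rB_LS H hq hΛ
  refine ⟨_, inferInstance, Helper19.A3.rB (Helper19.G5.cone1 D σ γ)
    (Helper19.G5.H1 M (Fin (q + 1)) ⟨0, by omega⟩), {⟨.inl (), Helper19.G5.inl_H1⟩},
    ⟨?_, HR.size, HR.two⟩, card_singleton _, ?_⟩
  · rw [Fintype.card_subtype_compl, Fintype.card_coe, Helper19.G5.card_H1, Fintype.card_sum,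
      Fintype.card_prod, h1]
    simp only [Fintype.card_unit, Fintype.card_fin]
    apply Nat.sub_eq_of_eq_add
    ring
  · intro x hx
    rw [mem_singleton] at hx
    rw [hx]
    exact (apt_iff HR _).2 (Helper19.A3.rB_apt H hq hΛ _
      (Helper19.G5.cone1_veblen HD O hσ (by simp)))

theorem two_sys {q m : ℕ} (hq : 2 ≤ q)
    (hP : HasSystem (q + 1) ((q + 1) ^ 2 + (q + 1) + 1)) (hm : HasSystem (q + 1) m) :
    HasAffineSystem (q + 1) ((q + 1) * (q * m + 1)) 2 := by
  classical
  obtain ⟨V, _, B, p1, p2, p3⟩ := hP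
  have HB : LS B (q + 1) := ⟨p2, p3, by omega⟩
  have P : Helper19.V3.Pla B (q + 1) univ := by
    refine ⟨?_, fun _ _ _ _ _ => subset_univ _⟩
    rw [card_univ, p1]
    ring
  obtain ⟨M, _, D, h1, h2, h3⟩ := hm
  have HD : LS D (q + 1) := ⟨h2, h3, by omega⟩
  obtain ⟨G, _, γ0, O0⟩ := Helper19.V3.exists_OA HB P
  have e12 : (⟨0, by omega⟩ : Fin (q + 1 + 1)) ≠ ⟨1, by omega⟩ := by
    intro h
    simp at h
  have e13 : (⟨0, by omega⟩ : Fin (q + 1 + 1)) ≠ ⟨2, by omega⟩ := by
    intro h
    simp at h
  have e23 : (⟨1, by omega⟩ : Fin (q + 1 + 1)) ≠ ⟨2, by omega⟩ := by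
    intro h
    simp at h
  obtain ⟨γ, O, hd⟩ := Helper19.A3.OA.diag O0 e12 e13 e23 (⟨0, by omega⟩ : Fin (q + 1))
  obtain ⟨σ, hσ⟩ := Helper19.G5.exists_inj (E := Fin (q + 1 + 1)) HD (by simp)
  have H := Helper19.G5.cone2_LS HD O hσ e12 (by simp) (by simp)
  have hΛ := Helper19.G5.cone2_hyp HD (by simp) O hσ e12 hd
  have HR := Helper19.A3.rB_LS H hq hΛ
  have n1 : (.inl ⟨0, by omega⟩ : Fin (q + 1 + 1) ⊕ (M × G)) ∉
      Helper19.G5.H2 M γ ⟨2, by omega⟩ (⟨0, by omega⟩ : Fin (q + 1)) := by
    rw [Helper19.G5.inl_H2]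
    exact e13
  have n2 : (.inl ⟨1, by omega⟩ : Fin (q + 1 + 1) ⊕ (M × G)) ∉
      Helper19.G5.H2 M γ ⟨2, by omega⟩ (⟨0, by omega⟩ : Fin (q + 1)) := by
    rw [Helper19.G5.inl_H2]
    exact e23
  refine ⟨_, inferInstance, Helper19.A3.rB (Helper19.G5.cone2 D σ γ ⟨0, by omega⟩ ⟨1, by omega⟩)
    (Helper19.G5.H2 M γ ⟨2, by omega⟩ (⟨0, by omega⟩ : Fin (q + 1))), {⟨_, n1⟩, ⟨_, n2⟩},
    ⟨?_, HR.size, HR.two⟩, card_pair ?_, ?_⟩
  · rw [Fintype.card_subtype_compl, Fintype.card_coe,
      Helper19.G5.card_H2 (q := q + 1) O e23.symm (by simp), Fintype.card_sum,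
      Fintype.card_prod, h1, Helper19.V3.card_G O e12]
    simp only [Fintype.card_fin]
    apply Nat.sub_eq_of_eq_add
    ring
  · intro h
    exact e12 (Sum.inl_injective (Subtype.ext_iff.1 h))
  · intro x hx
    rw [mem_insert, mem_singleton] at hx
    rcases hx with rfl | rfl
    · exact (apt_iff HR _).2 (Helper19.A3.rB_apt H hq hΛ _
        (Helper19.G5.cone2_veblen HD O hσ e12 (by simp) (by simp)))
    · exact (apt_iff HR _).2 (Helper19.A3.rB_apt H hq hΛ _
        (Helper19.G5.cone2_veblen' HD O hσ e12 (by simp) (by simp)))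

/-- Let `k ≥ 5`, `n > k ^ 2` and `k ^ (r - 1) < j ≤ k ^ r`.  There is a Steiner system `S(n, k, 2)`
with at least `j` affine points if and only if `n = k ^ r ((k - 1) m + 1)` for some `m` such that
there is a Steiner system `S(m, k + 1, 2)`, and `k` is a prime power, or `j ≤ 2` and there is a
projective plane of order `k`. -/
theorem result (k n j r : ℕ) (hk : 5 ≤ k) (hn : k ^ 2 < n) (h1 : k ^ r < k * j)
    (h2 : j ≤ k ^ r) :
    HasAffineSystem k n j ↔
      (∃ m, HasSystem k m ∧ n = k ^ r * ((k - 1) * m + 1)) ∧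
        (IsPrimePow k ∨ (j ≤ 2 ∧ HasSystem k (k ^ 2 + k + 1))) := by
  classical
  obtain ⟨q, rfl⟩ : ∃ q, k = q + 1 := ⟨k - 1, by omega⟩
  have hq : 4 ≤ q := by omega
  rw [Nat.add_sub_cancel]
  have hj0 : 0 < j := by
    rcases Nat.eq_zero_or_pos j with rfl | h
    · simp at h1
    · exact h
  constructor
  · intro hS
    have hplane := plane_of (by omega) hn hj0 hS
    obtain ⟨V, _, B, T, h3, h4, h5⟩ := hS
    have HB : LS B q := ⟨h3.2.1, h3.2.2, by omega⟩
    have hT : ∀ p ∈ T, Helper19.A3.Apt B q p := fun p hp => (apt_iff HB p).1 (h5 p hp)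
    refine ⟨?_, ?_⟩
    · obtain ⟨W, i1, i2, D, HD, hW⟩ := Helper19.G5.aff_nec HB hq hT r (by rw [h4]; exact h1)
      exact ⟨Fintype.card W, ⟨W, i2, D, rfl, HD.size, HD.two⟩, by rw [← h3.1, hW]⟩
    · by_cases hj2 : j ≤ 2
      · exact Or.inr ⟨hj2, hplane⟩
      · left
        obtain ⟨T', hT', hc'⟩ := exists_subset_card_eq (show 3 ≤ T.card by omega)
        obtain ⟨x, y, z, hxy, hxz, hyz, rfl⟩ := card_eq_three.1 hc'
        have hn' : (q + 1) * (q + 1) < Fintype.card V := by
          rw [h3.1]
          calc (q + 1) * (q + 1) = (q + 1) ^ 2 := by ring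
            _ < n := hn
        exact Helper19.A3.threeA HB (hT x (hT' (by simp))) (hT y (hT' (by simp)))
          (hT z (hT' (by simp))) hxy hxz hyz hn'
  · rintro ⟨⟨m, hm, hnm⟩, hpp | ⟨hj2, hP⟩⟩
    · rw [hnm]
      exact field_sys (by omega) hpp hm h2
    · rw [hnm]
      have hr1 : r ≤ 1 := by
        by_contra hcon
        have h3 : (q + 1) ^ 2 ≤ (q + 1) ^ r := Nat.pow_le_pow_right (by omega) (by omega)
        nlinarith
      have hr : r = 0 ∨ r = 1 := by omega
      rcases hr with rfl | rfl
      · have hj1 : j = 1 := by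
          rw [pow_zero] at h2
          omega
        subst hj1
        rw [pow_zero, one_mul]
        exact one_sys (by omega) hP hm
      · have hj1 : j = 2 := by
          rw [pow_one] at h1
          have : 1 < j := by
            by_contra hcon
            have : j = 1 := by omega
            subst this
            omega
          omega
        subst hj1
        rw [pow_one]
        exact two_sys (by omega) hP hm

end Pool.Agent.Results.MP_409a13_co.AffinePointSpectrum
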