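import Mathlib
import Pool.Agent.Helper19.VS.Main
import Pool.Agent.Helper19.VS.Affine

set_option autoImplicit false

/-!
# If Veblen's axiom fails rarely in a Steiner system `S(n, q + 1, 2)` then `q` is a prime power

A configuration consists of two different blocks through a point `p`, two points `a`, `b` of the
first block and two points `c`, `d` of the second one, all different from `p`.  Veblen's axiom asks
that the block `ac` meets the block `bd`.  It holds in every projective plane.  We show: if
`n > q ^ 2 + q + 1` and at most one in `100 q` configurations violates the axiom, then `q` is a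
prime power (and `n > q ^ 3`).  The order of magnitude `1 / q` cannot be improved: the lines of an
affine space over the field with `q + 1` elements violate the axiom in exactly one of `q - 1`
configurations, and `q` is in general not a prime power.

Idea of the proof.  First, counting the points collinear with two points of a set that would be the
plane of a point and a block shows that every point is on at least `q ^ 2` blocks.  Take three
blocks `X`, `Y`, `Z` through a point.  Most triples have no common transversal.  Call `z` a centre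
if it projects `X` onto `Y` bijectively.  There are almost `q (q - 1)` centres for `X`, `Y` and for
`Y`, `Z` and for `X`, `Z`, two different projections agree in at most one point, and the
composition of two projections is almost always a projection; the centre is found as in the proof
of Desargues' theorem in space.  So the projections form an approximate groupoid, and from three
such sets of bijections one finds a sharply two-transitive group of degree `q`.
-/

namespace Pool.Agent.Results.MP_409a13_co.RareVeblenFailures

open Finset Pool.Agent.V11100.VB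

/-- `B` is a Steiner system `S(n, k, t)` on `V` -/
def IsSteiner {V : Type} [Fintype V] (B : Finset (Finset V)) (n k t : ℕ) : Prop :=
  Fintype.card V = n ∧ (∀ b ∈ B, b.card = k) ∧ ∀ R : Finset V, R.card = t → ∃! b, b ∈ B ∧ R ⊆ b

/-- `p` is on two different blocks; `a` and `b` are different points of the first one, `c` and `d`
are different points of the second one, and all four are different from `p` -/
def Config {V : Type} (B : Finset (Finset V)) (p a b c d : V) : Prop :=
  ∃ l ∈ B, ∃ m ∈ B, l ≠ m ∧ p ∈ l ∧ p ∈ m ∧ a ∈ l ∧ b ∈ l ∧ c ∈ m ∧ d ∈ m ∧ a ≠ b ∧ c ≠ d ∧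
    a ≠ p ∧ b ≠ p ∧ c ≠ p ∧ d ≠ p

/-- a configuration for which the block of `a` and `c` is disjoint from the block of `b` and `d` -/
def Fails {V : Type} (B : Finset (Finset V)) (p a b c d : V) : Prop :=
  Config B p a b c d ∧ ∃ g ∈ B, ∃ h ∈ B, a ∈ g ∧ c ∈ g ∧ b ∈ h ∧ d ∈ h ∧ Disjoint g h

/-- the number of configurations `(p, a, b, c, d)` -/
noncomputable def configs {V : Type} (B : Finset (Finset V)) : ℕ :=
  Nat.card {t : V × V × V × V × V // Config B t.1 t.2.1 t.2.2.1 t.2.2.2.1 t.2.2.2.2}

/-- the number of those violating Veblen's axiom -/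
noncomputable def fails {V : Type} (B : Finset (Finset V)) : ℕ :=
  Nat.card {t : V × V × V × V × V // Fails B t.1 t.2.1 t.2.2.1 t.2.2.2.1 t.2.2.2.2}

theorem config_iff {V : Type} [DecidableEq V] {B : Finset (Finset V)} {q : ℕ} (H : LS B q)
    {p a b c d : V} : Config B p a b c d ↔ Helper19.VS.Cf B p a b c d := by
  constructor
  · rintro ⟨l, hl, m, hm, hlm, h1, h2, h3, h4, h5, h6, h7, h8, h9, h10, h11, h12⟩
    have e1 : bl B p a = l := H.bl_eq h9.symm hl h1 h3
    have e2 : bl B p c = m := H.bl_eq h11.symm hm h2 h5
    refine ⟨h9, h10, h11, h12, h7, h8, by rw [e1]; exact h4, by rw [e2]; exact h6, ?_⟩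
    rw [e1]
    intro hc
    exact hlm (H.un h11 hl hm hc h1 h5 h2)
  · rintro ⟨h1, h2, h3, h4, h5, h6, h7, h8, h9⟩
    refine ⟨bl B p a, H.bB h1.symm, bl B p c, H.bB h3.symm, ?_, H.b1 h1.symm, H.b1 h3.symm,
      H.b2 h1.symm, h7, H.b2 h3.symm, h8, h5, h6, h1, h2, h3, h4⟩
    intro e
    exact h9 (e ▸ H.b2 h3.symm)

theorem fails_iff {V : Type} [DecidableEq V] {B : Finset (Finset V)} {q : ℕ} (H : LS B q)
    {p a b c d : V} : Fails B p a b c d ↔ Helper19.VS.Bd B p a b c d := by
  have ne : Helper19.VS.Cf B p a b c d → a ≠ c ∧ b ≠ d := by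
    rintro ⟨h1, h2, h3, h4, h5, h6, h7, h8, h9⟩
    refine ⟨?_, ?_⟩
    · rintro rfl
      exact h9 (H.b2 h1.symm)
    · rintro rfl
      apply h9
      rw [← Helper19.VS.bl_of H h1.symm (H.b1 h1.symm) h7 h2.symm,
        Helper19.VS.bl_of H h3.symm (H.b1 h3.symm) h8 h4.symm]
      exact H.b2 h3.symm
  constructor
  · rintro ⟨hc, g, hg, h, hh, h1, h2, h3, h4, h5⟩
    have hc' := (config_iff H).1 hc
    obtain ⟨n1, n2⟩ := ne hc'
    refine ⟨hc', ?_⟩
    rw [H.bl_eq n1 hg h1 h2, H.bl_eq n2 hh h3 h4]
    intro w hw
    exact disjoint_left.1 h5 hw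
  · rintro ⟨hc, hd⟩
    obtain ⟨n1, n2⟩ := ne hc
    exact ⟨(config_iff H).2 hc, bl B a c, H.bB n1, bl B b d, H.bB n2, H.b1 n1, H.b2 n1, H.b1 n2,
      H.b2 n2, disjoint_left.2 fun {w} hw => hd w hw⟩

theorem configs_eq {V : Type} [DecidableEq V] [Fintype V] {B : Finset (Finset V)} {q : ℕ}
    (H : LS B q) : configs B = (Helper19.VS.cfs B).card := by
  classical
  unfold configs
  rw [Nat.card_eq_fintype_card, Fintype.card_subtype]
  congr 1
  ext ⟨p, a, b, c, d⟩
  rw [mem_filter, Helper19.VS.mem_cfs, config_iff H]
  simp

theorem fails_eq {V : Type} [DecidableEq V] [Fintype V] {B : Finset (Finset V)} {q : ℕ}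
    (H : LS B q) : fails B = (Helper19.VS.fls B).card := by
  classical
  unfold fails
  rw [Nat.card_eq_fintype_card, Fintype.card_subtype]
  congr 1
  ext ⟨p, a, b, c, d⟩
  rw [mem_filter, Helper19.VS.mem_fls, fails_iff H]
  simp

/-- If `n > q ^ 2 + q + 1` and at most one in `100 q` of the configurations of a Steiner system
`S(n, q + 1, 2)` violates Veblen's axiom, then `q` is a prime power and `n > q ^ 3`.  For every
prime power `Q = q + 1 ≥ 3` and every `d ≥ 2` there is a Steiner system `S(Q ^ d, q + 1, 2)` in
which exactly one in `q - 1 = Q - 2` of the configurations violates the axiom. -/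
theorem result :
    (∀ (V : Type) [Fintype V] (B : Finset (Finset V)) (n q : ℕ), 2 ≤ q →
      IsSteiner B n (q + 1) 2 → q ^ 2 + q + 1 < n → 100 * q * fails B ≤ configs B →
      IsPrimePow q ∧ q ^ 3 < n) ∧
    ∀ Q d : ℕ, IsPrimePow Q → 3 ≤ Q → 2 ≤ d →
      ∃ (V : Type) (_ : Fintype V) (B : Finset (Finset V)), IsSteiner B (Q ^ d) Q 2 ∧
        0 < fails B ∧ configs B = (Q - 2) * fails B := by
  classical
  refine ⟨?_, ?_⟩
  · intro V _ B n q hq hB hn hF
    have H : LS B q := ⟨hB.2.1, hB.2.2, hq⟩
    rw [fails_eq H, configs_eq H] at hF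
    rw [← hB.1] at hn ⊢
    exact Helper19.VS.core H hn hF
  · intro Q d hQ hQ3 hd
    obtain ⟨p, k, hp, hk, rfl⟩ := (isPrimePow_nat_iff Q).1 hQ
    have : Fact p.Prime := ⟨hp⟩
    obtain ⟨K, fK, fiK, hcard⟩ : ∃ (K : Type) (_ : Field K) (_ : Fintype K),
        Fintype.card K = p ^ k := by
      refine ⟨GaloisField p k, inferInstance, Fintype.ofFinite _, ?_⟩
      let _ : Fintype (GaloisField p k) := Fintype.ofFinite _
      rw [← Nat.card_eq_fintype_card]
      exact GaloisField.card p k (by omega)
    obtain ⟨q, hq⟩ : ∃ q, p ^ k = q + 1 := ⟨p ^ k - 1, by omega⟩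
    have H : LS (Helper19.VS.lines K (Fin d → K)) q :=
      Helper19.VS.lines_LS (by omega) (hcard.trans hq)
    refine ⟨Fin d → K, inferInstance, Helper19.VS.lines K (Fin d → K), ⟨?_, ?_, ?_⟩, ?_, ?_⟩
    · rw [Fintype.card_fun, Fintype.card_fin, hcard]
    · intro b hb
      rw [H.size b hb, hq]
    · exact H.two
    · rw [fails_eq H, card_pos]
      obtain ⟨l, hl⟩ : ∃ l : K, l ∉ ({0, 1} : Finset K) := by
        by_contra hc
        push Not at hc
        have h1 : (univ : Finset K) ⊆ {0, 1} := fun x _ => hc x
        have h2 := (card_le_card h1).trans card_le_two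
        rw [card_univ, hcard] at h2
        omega
      rw [mem_insert, mem_singleton, not_or] at hl
      set i : Fin d := ⟨0, by omega⟩
      set j : Fin d := ⟨1, by omega⟩
      have hij : i ≠ j := by
        intro e
        have := congrArg Fin.val e
        simp [i, j] at this
      have b := (Helper19.VS.fail_iff H (p := 0) (u := Pi.single i (1 : K))
        (w := Pi.single j (1 : K)) (l := l) (m := l) ?_ ?_ ?_ hl.1 hl.2 hl.1 hl.2).2 rfl
      · exact ⟨_, Helper19.VS.mem_fls.2 b⟩
      · intro e
        have := congrFun e i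
        simp at this
      · intro e
        have := congrFun e j
        simp at this
      · intro t e
        have := congrFun e j
        simp [hij.symm] at this
    · rw [fails_eq H, configs_eq H, Helper19.VS.affine_count (hcard.trans hq) H, hq]
      rfl

end Pool.Agent.Results.MP_409a13_co.RareVeblenFailures
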