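import Mathlib
import Pool.Agent.Helper19.V3.Collin
import Pool.Agent.Helper19.V3.Sub
import Pool.Agent.Helper19.G5.Quo
import Pool.Agent.Helper19.G5.FldVeb
import Pool.Agent.Helper19.G5.Arr

set_option autoImplicit false

/-!
# The Steiner systems `S(n, q + 1, 2)` with a given number of Veblen points

A point `p` of a Steiner system `S(n, q + 1, 2)` is a Veblen point if Veblen's axiom holds for all
configurations with vertex `p`: two different blocks through `p`, points `a`, `b` of the first one
and `c`, `d` of the second one, all different from `p`; then the block `ac` meets the block `bd`.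
In a projective plane all points are Veblen points, so we ask for `n > q ^ 2 + q + 1`.

We determine for all `q ≥ 2`, all `n > q ^ 2 + q + 1` and all `j ≥ 1` whether there is a Steiner
system `S(n, q + 1, 2)` with at least `j` Veblen points, in terms of the existence of a smaller
Steiner system with blocks of `q + 1` points and of projective planes of order `q`.  Write
`v_k = 1 + q + ... + q ^ (k - 1)` and let `k` be given by `v_k < j ≤ v_(k+1)`.  The system exists
if and only if `n = q ^ (k + 1) m + v_(k+1)`, where there is an `S(m, q + 1, 2)` (this is the case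
for `m = 0` and `m = 1`), and

* `q` is a prime power, or
* `j ≤ 2` and there is a projective plane of order `q`.

Idea of the proof.  Suppose that there are more than `v_k` Veblen points.  As the subsystem that is
generated by `k` Veblen points has at most `v_k` points, there are `k + 1` Veblen points that
generate a subsystem with `v_(k+1)` points.  The blocks through a Veblen point `p` are the points
of a quotient system, whose blocks are the planes through `p`, and a further Veblen point gives a
Veblen point of the quotient; after `k + 1` steps this is the system `S(m, q + 1, 2)`.  Three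
Veblen points, in any position, force `q` to be a prime power: if `a`, `b`, `c` are not on a block
and `x` is a further point of the block `bc`, projecting a plane through `a` and `x` from `b` to
another plane through `a` and back from `c` gives collineations that act sharply two-transitively
on the `q` points other than `x` of a block through `x`; if they are on a block, these products of
projections are the elations with centre `a`, and they form elementary abelian groups of order `q`.
Conversely, for a prime power `q` we extend the system `S(m, q + 1, 2)` by the points of a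
projective space over the field with `q` elements, and for `j ≤ 2` by a point or by a block, using
an orthogonal array that represents the given plane.
-/

namespace Pool.Agent.Results.MP_409a13_co.VeblenPointSpectrum

open Finset Pool.Agent.V11100.VB

/-- `B` is a Steiner system `S(n, k, t)` on `V` -/
def IsSteiner {V : Type} [Fintype V] (B : Finset (Finset V)) (n k t : ℕ) : Prop :=
  Fintype.card V = n ∧ (∀ b ∈ B, b.card = k) ∧ ∀ R : Finset V, R.card = t → ∃! b, b ∈ B ∧ R ⊆ b

/-- `p` is a Veblen point: if two different blocks `l`, `m` through `p` contain `a`, `b` and `c`,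
`d`, all different from `p`, then the block of `a` and `c` meets the block of `b` and `d` -/
def IsVeblen {V : Type} (B : Finset (Finset V)) (p : V) : Prop :=
  ∀ l ∈ B, ∀ m ∈ B, l ≠ m → p ∈ l → p ∈ m →
    ∀ a ∈ l, ∀ b ∈ l, ∀ c ∈ m, ∀ d ∈ m, a ≠ p → b ≠ p → c ≠ p → d ≠ p →
      ∀ g ∈ B, ∀ h ∈ B, a ∈ g → c ∈ g → b ∈ h → d ∈ h → ∃ w, w ∈ g ∧ w ∈ h

/-- there is a Steiner system `S(m, q + 1, 2)` -/
def HasSystem (q m : ℕ) : Prop :=
  ∃ (V : Type) (_ : Fintype V) (B : Finset (Finset V)), IsSteiner B m (q + 1) 2

/-- there is a Steiner system `S(n, q + 1, 2)` with at least `j` Veblen points -/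
def HasVeblenSystem (q n j : ℕ) : Prop :=
  ∃ (V : Type) (_ : Fintype V) (B : Finset (Finset V)) (T : Finset V),
    IsSteiner B n (q + 1) 2 ∧ T.card = j ∧ ∀ p ∈ T, IsVeblen B p

theorem plane_of {q n j : ℕ} (hq : 2 ≤ q) (hn : q ^ 2 + q + 1 < n) (hj : 0 < j)
    (H : HasVeblenSystem q n j) : HasSystem q (q ^ 2 + q + 1) := by
  classical
  obtain ⟨V, _, B, T, h2, h3, h4⟩ := H
  obtain ⟨p, hpT⟩ : T.Nonempty := by rw [← card_pos]; omega
  have HB : LS B q := ⟨h2.2.1, h2.2.2, hq⟩
  have hn' : (q + 1) * q + 1 < Fintype.card V := by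
    rw [h2.1]
    calc (q + 1) * q + 1 = q ^ 2 + q + 1 := by ring
      _ < n := hn
  obtain ⟨L, hL, hp⟩ := Helper19.V3.exists_block_notMem HB p hn'
  have P := Helper19.V3.pla_pl HB (h4 p hpT) hL hp
  obtain ⟨C, HC⟩ := Helper19.V3.sub_LS HB P
  refine ⟨_, inferInstance, C, ?_, HC.size, HC.two⟩
  rw [Fintype.card_coe, P.card]
  ring

theorem field_sys {q m j k : ℕ} (hq : 2 ≤ q) (hpp : IsPrimePow q) (hm : HasSystem q m)
    (hj : j ≤ ∑ i ∈ range (k + 1), q ^ i) :
    HasVeblenSystem q (q ^ (k + 1) * m + ∑ i ∈ range (k + 1), q ^ i) j := by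
  classical
  obtain ⟨M, _, D, h1, h2, h3⟩ := hm
  have HD : LS D q := ⟨h2, h3, hq⟩
  obtain ⟨p, n, hp, hn, hpn⟩ := hpp
  have : Fact p.Prime := ⟨hp.nat_prime⟩
  let K := GaloisField p n
  have : Finite K := inferInstance
  have : Fintype K := Fintype.ofFinite K
  have hK : Fintype.card K = q := by
    rw [← Nat.card_eq_fintype_card, GaloisField.card p n hn.ne', hpn]
  let W := Fin (k + 1) → K
  have : Finite (Projectivization K W) :=
    (Projectivization.finite_iff_of_finite K W).2 inferInstance
  have : Fintype (Projectivization K W) := Fintype.ofFinite _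
  obtain ⟨c, hc⟩ := Helper19.G5.exists_ind HD hK
  have hP : Fintype.card (Projectivization K W) = ∑ i ∈ range (k + 1), q ^ i := by
    rw [← Nat.card_eq_fintype_card, Projectivization.card_of_finrank K W (n := k + 1)
      (by simp [W]), Nat.card_eq_fintype_card, hK]
  have hW : Fintype.card W = q ^ (k + 1) := by
    simp only [W, Fintype.card_fun, Fintype.card_fin, hK]
  have H := Helper19.G5.fB_LS (W := W) HD hK hc
  obtain ⟨T, hT, hTj⟩ := exists_subset_card_eq (s := (univ : Finset (Projectivization K W)).image
    (Sum.inl : Projectivization K W → Projectivization K W ⊕ (M × W))) (n := j) (by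
      rw [card_image_of_injective _ Sum.inl_injective, card_univ, hP]; exact hj)
  refine ⟨Projectivization K W ⊕ (M × W), inferInstance, Helper19.G5.fB D c, T,
    ⟨?_, H.size, H.two⟩, hTj, ?_⟩
  · rw [Fintype.card_sum, Fintype.card_prod, hP, hW, h1]
    ring
  · intro x hx
    obtain ⟨y, -, rfl⟩ := mem_image.1 (hT hx)
    exact Helper19.G5.fB_veblen HD hK hc y

theorem one_sys {q m : ℕ} (hq : 2 ≤ q) (hP : HasSystem q (q ^ 2 + q + 1)) (hm : HasSystem q m) :
    HasVeblenSystem q (q * m + 1) 1 := by
  classical
  obtain ⟨V, _, B, p1, p2, p3⟩ := hP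
  have HB : LS B q := ⟨p2, p3, hq⟩
  have P : Helper19.V3.Pla B q univ := by
    refine ⟨?_, fun _ _ _ _ _ => subset_univ _⟩
    rw [card_univ, p1]
    ring
  obtain ⟨M, _, D, h1, h2, h3⟩ := hm
  have HD : LS D q := ⟨h2, h3, hq⟩
  obtain ⟨G, _, γ, O⟩ := Helper19.V3.exists_OA HB P
  obtain ⟨σ, hσ⟩ := Helper19.G5.exists_inj (E := Fin (q + 1)) HD (by simp)
  have H := Helper19.G5.cone1_LS HD O hσ (by simp)
  refine ⟨_, inferInstance, Helper19.G5.cone1 D σ γ, {.inl ()}, ⟨?_, H.size, H.two⟩,
    card_singleton _, ?_⟩
  · rw [Fintype.card_sum, Fintype.card_prod, h1]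
    simp only [Fintype.card_unit, Fintype.card_fin]
    ring
  · intro x hx
    rw [mem_singleton] at hx
    rw [hx]
    exact Helper19.G5.cone1_veblen HD O hσ (by simp)

theorem two_sys {q m : ℕ} (hq : 2 ≤ q) (hP : HasSystem q (q ^ 2 + q + 1)) (hm : HasSystem q m) :
    HasVeblenSystem q (q ^ 2 * m + (q + 1)) 2 := by
  classical
  obtain ⟨V, _, B, p1, p2, p3⟩ := hP
  have HB : LS B q := ⟨p2, p3, hq⟩
  have P : Helper19.V3.Pla B q univ := by
    refine ⟨?_, fun _ _ _ _ _ => subset_univ _⟩
    rw [card_univ, p1]
    ring
  obtain ⟨M, _, D, h1, h2, h3⟩ := hm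
  have HD : LS D q := ⟨h2, h3, hq⟩
  obtain ⟨G, _, γ, O⟩ := Helper19.V3.exists_OA HB P
  obtain ⟨σ, hσ⟩ := Helper19.G5.exists_inj (E := Fin (q + 1)) HD (by simp)
  have h12 : (⟨0, by omega⟩ : Fin (q + 1)) ≠ ⟨1, by omega⟩ := by
    intro h
    simp at h
  have H := Helper19.G5.cone2_LS HD O hσ h12 (by simp) (by simp)
  refine ⟨_, inferInstance, Helper19.G5.cone2 D σ γ ⟨0, by omega⟩ ⟨1, by omega⟩,
    {.inl ⟨0, by omega⟩, .inl ⟨1, by omega⟩}, ⟨?_, H.size, H.two⟩, card_pair ?_, ?_⟩
  · rw [Fintype.card_sum, Fintype.card_prod, h1, Helper19.V3.card_G O h12]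
    simp only [Fintype.card_fin]
    ring
  · intro h
    exact h12 (Sum.inl_injective h)
  · intro x hx
    rw [mem_insert, mem_singleton] at hx
    rcases hx with rfl | rfl
    · exact Helper19.G5.cone2_veblen HD O hσ h12 (by simp) (by simp)
    · exact Helper19.G5.cone2_veblen' HD O hσ h12 (by simp) (by simp)

/-- Let `q ≥ 2`, `n > q ^ 2 + q + 1` and `v_k < j ≤ v_(k+1)`, where
`v_k = 1 + q + ... + q ^ (k - 1)`.  There is a Steiner system `S(n, q + 1, 2)` with at least `j`
Veblen points if and only if `n = q ^ (k + 1) m + v_(k+1)` for some `m` such that there is a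
Steiner system `S(m, q + 1, 2)`, and `q` is a prime power, or `j ≤ 2` and there is a projective
plane of order `q`. -/
theorem result (q n j k : ℕ) (hq : 2 ≤ q) (hn : q ^ 2 + q + 1 < n)
    (hk : ∑ i ∈ range k, q ^ i < j) (hj : j ≤ ∑ i ∈ range (k + 1), q ^ i) :
    HasVeblenSystem q n j ↔
      (∃ m, HasSystem q m ∧ n = q ^ (k + 1) * m + ∑ i ∈ range (k + 1), q ^ i) ∧
        (IsPrimePow q ∨ (j ≤ 2 ∧ HasSystem q (q ^ 2 + q + 1))) := by
  classical
  constructor
  · intro hS
    have hplane := plane_of hq hn (by omega) hS
    obtain ⟨V, _, B, T, h2, h3, h4⟩ := hS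
    have HB : LS B q := ⟨h2.2.1, h2.2.2, hq⟩
    refine ⟨?_, ?_⟩
    · obtain ⟨A, hA, hcA⟩ := Helper19.G5.exists_VG HB (T := T) (fun p hp => h4 p hp) k
        (by rw [h3]; exact hk)
      obtain ⟨W, i1, i2, C, HC, hW⟩ := Helper19.G5.nec (k + 1) HB A hA hcA
      exact ⟨Fintype.card W, ⟨W, i2, C, rfl, HC.size, HC.two⟩, by rw [← h2.1, hW]⟩
    · by_cases hj2 : j ≤ 2
      · exact Or.inr ⟨hj2, hplane⟩
      · left
        obtain ⟨T', hT', hc'⟩ := exists_subset_card_eq (show 3 ≤ T.card by omega)
        obtain ⟨x, y, z, hxy, hxz, hyz, rfl⟩ := card_eq_three.1 hc'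
        have hn' : (q + 1) * q + 1 < Fintype.card V := by
          rw [h2.1]
          calc (q + 1) * q + 1 = q ^ 2 + q + 1 := by ring
            _ < n := hn
        exact Helper19.V3.three HB (h4 x (hT' (by simp))) (h4 y (hT' (by simp)))
          (h4 z (hT' (by simp))) hxy hxz hyz hn'
  · rintro ⟨⟨m, hm, hnm⟩, hpp | ⟨hj2, hP⟩⟩
    · rw [hnm]
      exact field_sys hq hpp hm hj
    · have hk2 : k ≤ 1 := by
        by_contra hcon
        have h1 : ∑ i ∈ range 2, q ^ i ≤ ∑ i ∈ range k, q ^ i :=
          sum_le_sum_of_subset (by intro i; simp only [mem_range]; omega)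
        simp only [sum_range_succ, range_zero, sum_empty, pow_zero, pow_one] at h1
        omega
      have hk0 : k = 0 ∨ k = 1 := by omega
      rcases hk0 with rfl | rfl
      · have hj1 : j = 1 := by
          simp only [range_zero, sum_empty, zero_add, sum_range_succ, pow_zero] at hk hj
          omega
        subst hj1
        have := one_sys hq hP hm
        rw [hnm]
        simpa using this
      · have hj1 : j = 2 := by
          simp only [range_zero, sum_empty, zero_add, sum_range_succ, pow_zero] at hk
          omega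
        subst hj1
        have := two_sys hq hP hm
        rw [hnm]
        simp only [sum_range_succ, range_zero, sum_empty, pow_zero, pow_one, zero_add]
        rw [add_comm 1 q]
        exact this

end Pool.Agent.Results.MP_409a13_co.VeblenPointSpectrum
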