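import Mathlib
import Pool.Agent.Helper19.G4.Ind

set_option autoImplicit false

/-!
# The Veblen points of a Steiner system `S(n, q + 1, 2)` generate a projective space

A point `p` of a Steiner system `S(n, q + 1, 2)` is a Veblen point if Veblen's axiom holds for all
configurations with vertex `p`: two different blocks through `p`, points `a`, `b` of the first one
and `c`, `d` of the second one, all different from `p`; then the block `ac` meets the block `bd`.
If all points are Veblen points then the system is a projective space (Veblen and Young).

We show that it is enough that the Veblen points generate the system, that is, that they are in no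
proper subsystem.  More generally, in every Steiner system `S(n, q + 1, 2)` a subsystem `S` that is
generated by Veblen points is a projective space: any two blocks of `S` with a common point are in
a subsystem of `S` with `q ^ 2 + q + 1` points, the number of points of `S` is
`1 + q + ... + q ^ (k - 1)` for some `k`, and `q` is a prime power if `S` has more than
`q ^ 2 + q + 1` points.

Idea of the proof.  The main case is that of a subsystem `S` with `q ^ 3 + q ^ 2 + q + 1` points
that is generated by four Veblen points `a`, `b`, `c`, `d`.  Let `x` be a point of `S` that is not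
in the plane `abc` and `g` a block of this plane that meets the block `ab` in a point `z` different
from `a` and `b`.  In the plane `A = czx` we have for every plane `P` through `z`, not through `a`
or `b`, the collineation that is obtained by projecting from `a` to `P` and back from `b`; it fixes
all blocks through `z`.  If `P` contains the block `cz` it is an elation with axis `cz`, all
elations with this centre and axis are obtained, and on each block through `z` the collineation
given by any `P` agrees with one of them.  So we can multiply the collineation given by the plane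
`P = dg` with an elation such that the product fixes `x`, and the product comes from a plane on
every block through `z`.  The points `aw ∩ bφ(w)` then form a plane, and it contains `x` and `g`.
It follows that any two blocks of `S` that meet are in a plane.  For larger subsystems project two
blocks `l`, `m` that meet from Veblen points `p`, `p'` into hyperplanes; by induction this gives
three-dimensional subsystems through `p`, `l`, `m` and through `p'`, `l`, `m`, and if `p'` is not in
the first one they intersect in a plane.
-/

namespace Pool.Agent.Results.MP_409a13_co.VeblenPointsGenerate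

open Finset Pool.Agent.V11100.VB

/-- `B` is a Steiner system `S(n, k, t)` on `V` -/
def IsSteiner {V : Type} [Fintype V] (B : Finset (Finset V)) (n k t : ℕ) : Prop :=
  Fintype.card V = n ∧ (∀ b ∈ B, b.card = k) ∧ ∀ R : Finset V, R.card = t → ∃! b, b ∈ B ∧ R ⊆ b

/-- `p` is a Veblen point: if two different blocks `l`, `m` through `p` contain `a`, `b` and `c`,
`d`, all different from `p`, then the block of `a` and `c` meets the block of `b` and `d` -/
def IsVeblen {V : Type} (B : Finset (Finset V)) (p : V) : Prop :=
  ∀ l ∈ B, ∀ m ∈ B, l ≠ m → p ∈ l → p ∈ m →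
    ∀ a ∈ l, ∀ b ∈ l, ∀ c ∈ m, ∀ d ∈ m, a ≠ p → b ≠ p → c ≠ p → d ≠ p →
      ∀ g ∈ B, ∀ h ∈ B, a ∈ g → c ∈ g → b ∈ h → d ∈ h → ∃ w, w ∈ g ∧ w ∈ h

/-- `S` is a subsystem: it contains every block that has two points in `S` -/
def IsSubsystem {V : Type} (B : Finset (Finset V)) (S : Finset V) : Prop :=
  ∀ b ∈ B, ∀ x ∈ b, ∀ y ∈ b, x ≠ y → x ∈ S → y ∈ S → b ⊆ S

/-- `S` is a subsystem that is generated by Veblen points: a subsystem contained in `S` that
contains all Veblen points of `S` is equal to `S` -/
def IsVeblenGenerated {V : Type} (B : Finset (Finset V)) (S : Finset V) : Prop :=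
  IsSubsystem B S ∧ ∀ T, T ⊆ S → IsSubsystem B T → (∀ p ∈ S, IsVeblen B p → p ∈ T) → T = S

/-- any two different blocks contained in `S` that have a common point are contained in a subsystem
of `S` with `q ^ 2 + q + 1` points (a projective plane of order `q`) -/
def IsProjective {V : Type} (B : Finset (Finset V)) (q : ℕ) (S : Finset V) : Prop :=
  ∀ b ∈ B, ∀ c ∈ B, b ⊆ S → c ⊆ S → b ≠ c → (∃ x, x ∈ b ∧ x ∈ c) →
    ∃ P, P ⊆ S ∧ P.card = q ^ 2 + q + 1 ∧ IsSubsystem B P ∧ b ⊆ P ∧ c ⊆ P

theorem cl_iff {V : Type} [DecidableEq V] {B : Finset (Finset V)} {q : ℕ} (H : LS B q)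
    (S : Finset V) : IsSubsystem B S ↔ Helper19.G4.Cl B S := by
  constructor
  · intro h x hx y hy hxy
    exact h _ (H.bB hxy) x (H.b1 hxy) y (H.b2 hxy) hxy hx hy
  · intro h b hb x hxb y hyb hxy hx hy
    rw [← H.bl_eq hxy hb hxb hyb]
    exact h x hx y hy hxy

/-- Let `q ≥ 2` and let `S` be a subsystem of a Steiner system `S(n, q + 1, 2)` that is generated
by Veblen points.  Then `S` is a projective space of order `q`; the number of its points is
`1 + q + ... + q ^ (k - 1)` for some `k ≥ 0`, and if it is larger than `q ^ 2 + q + 1` then `q` is a
prime power. -/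
theorem result (q n : ℕ) (hq : 2 ≤ q) (V : Type) [Fintype V] (B : Finset (Finset V))
    (hB : IsSteiner B n (q + 1) 2) (S : Finset V) (hS : IsVeblenGenerated B S) :
    IsProjective B q S ∧ (∃ k, S.card = ∑ i ∈ range k, q ^ i) ∧
      (q ^ 2 + q + 1 < S.card → IsPrimePow q) := by
  classical
  have H : LS B q := ⟨hB.2.1, hB.2.2, hq⟩
  have hA : Helper19.G4.VG B S := by
    refine ⟨(cl_iff H S).1 hS.1, fun C hC hcl hgen => ?_⟩
    exact hS.2 C hC ((cl_iff H C).2 hcl) hgen
  refine ⟨?_, Helper19.G4.VG.card H _ S rfl hA, ?_⟩
  · rintro b hb c hc bS cS hbc ⟨x, xb, xc⟩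
    obtain ⟨P, hP, h1, h2⟩ := Helper19.G4.VG.plane H _ S rfl hA x (bS xb) b hb c hc bS cS hbc xb xc
    obtain ⟨y, yc, yx⟩ := H.two_pts hc x
    have yb : y ∉ b := fun h => yx (H.pt hb hc hbc h yc xb xc)
    refine ⟨P, ?_, by rw [hP.card]; ring, (cl_iff H P).2 hP.cl, h1, h2⟩
    rw [← hP.eq H (h2 yc) hb h1 yb]
    exact Helper19.G4.pl_sub hA.cl (cS yc) bS yb
  · intro hcard
    have h3 : (q + 1) * q + 1 < S.card := by
      calc (q + 1) * q + 1 = q ^ 2 + q + 1 := by ring
        _ < S.card := hcard
    have h4 : S.card ≤ Fintype.card V := card_le_univ S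
    have k1 : q + 1 < (q + 1) * q + 1 := by nlinarith
    obtain ⟨a, aS, va, -⟩ := hA.out (empty_subset S) Helper19.G4.Cl.empty (by
      intro h
      rw [← h, card_empty] at hcard
      omega)
    obtain ⟨b, bS, vb, hb⟩ := hA.out (singleton_subset_iff.2 aS) (Helper19.G4.Cl.single a) (by
      intro h
      rw [← h, card_singleton] at h3
      omega)
    have hab : a ≠ b := fun h => hb (mem_singleton.2 h.symm)
    obtain ⟨c, cS, vc, hc⟩ := hA.out (hA.cl a aS b bS hab) (Helper19.G4.Cl.block H (H.bB hab)) (by
      intro h
      rw [← h, H.size _ (H.bB hab)] at h3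
      omega)
    have hac : a ≠ c := fun h => hc (h ▸ H.b1 hab)
    have hbc : b ≠ c := fun h => hc (h ▸ H.b2 hab)
    exact Helper19.V3.three H va vb vc hab hac hbc (lt_of_lt_of_le h3 h4)

end Pool.Agent.Results.MP_409a13_co.VeblenPointsGenerate
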